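import Mathlib

/-!
# Finite-dimensional Hardy spaces of planar domains consist of rational functions

Let `D` be a planar domain. If `H²(D)` is finite-dimensional, then every `f ∈ H²(D)` is a rational function: there are
polynomials `P` and `Q ≠ 0` of degree at most `dim H²(D)` with `Q f = P` on `D`. So `H²(D)` is infinite-dimensional as soon
as it contains one function that is not rational. If moreover `H²(D)` contains a nonconstant function, then it contains `z`
or `1 / (z - p)` for a point `p ∉ D`, that is, `|z|²` or `|z - p|⁻²` has a harmonic majorant on `D`.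

Proof: for `a ∈ D` the space `H²(D)` is invariant under the difference quotient `f ↦ (f - f(a)) / (z - a)`.
-/

set_option autoImplicit false

namespace Pool.Agent.Results.MP_4874ca_an.RationalIfFinite

open Polynomial InnerProductSpace Topology

/-- `f` is holomorphic on `D` and `|f|²` has a harmonic majorant on `D`. -/
def InHardy (D : Set ℂ) (f : ℂ → ℂ) : Prop :=
  DifferentiableOn ℂ f D ∧ ∃ u : ℂ → ℝ, HarmonicOnNhd u D ∧ ∀ z ∈ D, ‖f z‖ ^ 2 ≤ u z

theorem InHardy.add {D : Set ℂ} {f g : ℂ → ℂ} (hf : InHardy D f) (hg : InHardy D g) :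
    InHardy D (f + g) := by
  obtain ⟨h1, u, h2, h3⟩ := hf
  obtain ⟨k1, v, k2, k3⟩ := hg
  refine ⟨h1.add k1, (2 : ℝ) • u + (2 : ℝ) • v, h2.const_smul.add k2.const_smul, fun z hz => ?_⟩
  have := h3 z hz
  have := k3 z hz
  have h4 := norm_add_le (f z) (g z)
  simp only [Pi.add_apply, Pi.smul_apply, smul_eq_mul]
  nlinarith [norm_nonneg (f z + g z), norm_nonneg (f z), norm_nonneg (g z), sq_nonneg (‖f z‖ - ‖g z‖)]

theorem InHardy.smul {D : Set ℂ} {f : ℂ → ℂ} (c : ℂ) (hf : InHardy D f) : InHardy D (c • f) := by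
  obtain ⟨h1, u, h2, h3⟩ := hf
  refine ⟨h1.const_smul c, (‖c‖ ^ 2 : ℝ) • u, h2.const_smul, fun z hz => ?_⟩
  simp only [Pi.smul_apply, smul_eq_mul, norm_mul, mul_pow]
  exact mul_le_mul_of_nonneg_left (h3 z hz) (by positivity)

theorem harmonic_const (D : Set ℂ) (c : ℝ) : HarmonicOnNhd (fun _ : ℂ => c) D := by
  intro x _
  exact harmonicAt_const c

theorem inHardy_const (D : Set ℂ) (c : ℂ) : InHardy D (fun _ => c) :=
  ⟨differentiableOn_const c, fun _ => ‖c‖ ^ 2, harmonic_const D _, fun _ _ => le_rfl⟩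

/-- The Hardy space `H²(D)`, a space of functions on `D`. -/
def hardy (D : Set ℂ) : Submodule ℂ (D → ℂ) where
  carrier := {g | ∃ f : ℂ → ℂ, InHardy D f ∧ ∀ z : D, g z = f z}
  add_mem' := by
    rintro g g' ⟨f, hf, h⟩ ⟨f', hf', h'⟩
    exact ⟨f + f', hf.add hf', fun z => by simp [h z, h' z]⟩
  zero_mem' := ⟨fun _ => 0, inHardy_const D 0, fun _ => rfl⟩
  smul_mem' := by
    rintro c g ⟨f, hf, h⟩
    exact ⟨c • f, hf.smul c, fun z => by simp [h z]⟩

/-- The Hardy space is invariant under difference quotients. -/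
theorem InHardy.dslope {D : Set ℂ} (hD : IsOpen D) {f : ℂ → ℂ} (hf : InHardy D f) {a : ℂ}
    (ha : a ∈ D) : InHardy D (dslope f a) := by
  obtain ⟨h1, u, h2, h3⟩ := hf
  have hd : DifferentiableOn ℂ (_root_.dslope f a) D :=
    (Complex.differentiableOn_dslope (hD.mem_nhds ha)).2 h1
  obtain ⟨r, hr, hrD⟩ := Metric.nhds_basis_closedBall.mem_iff.1 (hD.mem_nhds ha)
  obtain ⟨B, hB⟩ := (isCompact_closedBall a r).exists_bound_of_continuousOn
    (hd.continuousOn.mono hrD)
  refine ⟨hd, (2 / r ^ 2 : ℝ) • u + fun _ => 2 * ‖f a‖ ^ 2 / r ^ 2 + B ^ 2,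
    h2.const_smul.add (harmonic_const D _), fun z hz => ?_⟩
  have hu : 0 ≤ u z := (sq_nonneg _).trans (h3 z hz)
  simp only [Pi.add_apply, Pi.smul_apply, smul_eq_mul]
  rcases le_or_gt (dist z a) r with h | h
  · have h4 := hB z h
    have h5 : ‖_root_.dslope f a z‖ ^ 2 ≤ B ^ 2 := pow_le_pow_left₀ (norm_nonneg _) h4 2
    have h6 : 0 ≤ 2 / r ^ 2 * u z := by positivity
    have h7 : 0 ≤ 2 * ‖f a‖ ^ 2 / r ^ 2 := by positivity
    linarith
  · have hza : z ≠ a := by
      rintro rfl
      rw [dist_self] at h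
      exact absurd h (not_lt.2 hr.le)
    rw [dslope_of_ne _ hza, slope_def_field, norm_div, div_pow]
    rw [dist_eq_norm] at h
    have h4 := norm_sub_le (f z) (f a)
    have h5 : ‖f z - f a‖ ^ 2 ≤ 2 * u z + 2 * ‖f a‖ ^ 2 := by
      have := h3 z hz
      nlinarith [norm_nonneg (f z - f a), norm_nonneg (f z), norm_nonneg (f a),
        sq_nonneg (‖f z‖ - ‖f a‖)]
    have h6 : r ^ 2 ≤ ‖z - a‖ ^ 2 := pow_le_pow_left₀ hr.le h.le 2
    calc ‖f z - f a‖ ^ 2 / ‖z - a‖ ^ 2 ≤ (2 * u z + 2 * ‖f a‖ ^ 2) / r ^ 2 := by gcongr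
      _ = 2 / r ^ 2 * u z + 2 * ‖f a‖ ^ 2 / r ^ 2 := by ring
      _ ≤ _ := by nlinarith [sq_nonneg B]

/-- iterated difference quotients -/
noncomputable def it (f : ℂ → ℂ) (a : ℂ) : ℕ → ℂ → ℂ
  | 0 => f
  | k + 1 => dslope (it f a k) a

theorem it_mem {D : Set ℂ} (hD : IsOpen D) {f : ℂ → ℂ} (hf : InHardy D f) {a : ℂ}
    (ha : a ∈ D) : ∀ k, InHardy D (it f a k)
  | 0 => hf
  | k + 1 => (it_mem hD hf ha k).dslope hD ha

theorem it_eq (f : ℂ → ℂ) (a : ℂ) (k : ℕ) : ∃ T : ℂ[X], T.degree < k ∧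
    ∀ z, (z - a) ^ k * it f a k z = f z - T.eval z := by
  induction k with
  | zero => exact ⟨0, by simp, fun z => by simp [it]⟩
  | succ k ih =>
    obtain ⟨T, hT, h⟩ := ih
    refine ⟨T + C (it f a k a) * (X - C a) ^ k, ?_, fun z => ?_⟩
    · refine lt_of_le_of_lt (degree_add_le _ _) (max_lt (hT.trans (by exact_mod_cast Nat.lt_succ_self k)) ?_)
      refine lt_of_le_of_lt (degree_mul_le _ _) ?_
      refine lt_of_le_of_lt (add_le_add degree_C_le le_rfl) ?_
      rw [zero_add, degree_pow, degree_X_sub_C, nsmul_one]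
      exact_mod_cast Nat.lt_succ_self k
    · have h1 : (z - a) * it f a (k + 1) z = it f a k z - it f a k a := by
        have := sub_smul_dslope (it f a k) a z
        simpa [it, smul_eq_mul] using this
      rw [pow_succ, mul_assoc, h1, mul_sub, h z]
      simp only [eval_add, eval_mul, eval_C, eval_pow, eval_sub, eval_X]
      ring

/-- Finite-dimensional Hardy spaces consist of rational functions. -/
theorem rational (D : Set ℂ) (hD : IsOpen D) (hne : D.Nonempty)
    (hfin : FiniteDimensional ℂ (hardy D)) (f : ℂ → ℂ) (hf : InHardy D f) :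
    ∃ P Q : ℂ[X], Q ≠ 0 ∧ P.natDegree ≤ Module.finrank ℂ (hardy D) ∧
      Q.natDegree ≤ Module.finrank ℂ (hardy D) ∧ ∀ z ∈ D, Q.eval z * f z = P.eval z := by
  obtain ⟨a, ha⟩ := hne
  set n := Module.finrank ℂ (hardy D) with hn
  let v : Fin (n + 1) → hardy D := fun k =>
    ⟨fun z : D => it f a k z, it f a k, it_mem hD hf ha k, fun _ => rfl⟩
  have hdep : ¬ LinearIndependent ℂ v := by
    intro h
    have := h.fintype_card_le_finrank
    simp only [Fintype.card_fin] at this
    omega
  rw [Fintype.not_linearIndependent_iff] at hdep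
  obtain ⟨c, hc, k0, hk0⟩ := hdep
  choose T hT hTz using it_eq f a
  have hrel : ∀ z ∈ D, ∑ k : Fin (n + 1), c k * it f a k z = 0 := by
    intro z hz
    have h1 := congrArg (fun g : hardy D => (g : D → ℂ) ⟨z, hz⟩) hc
    simpa [v] using h1
  set Q0 : ℂ[X] := ∑ k : Fin (n + 1), C (c k) * X ^ (n - (k : ℕ)) with hQ0
  have hQ0ne : Q0 ≠ 0 := by
    intro h
    have h1 : Q0.coeff (n - k0) = c k0 := by
      rw [hQ0, finsetSum_coeff, Finset.sum_eq_single k0]
      · simp
      · intro b _ hb
        rw [coeff_C_mul, coeff_X_pow, if_neg, mul_zero]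
        intro h2
        apply hb
        ext
        have := b.2
        have := k0.2
        omega
      · intro h; exact absurd (Finset.mem_univ _) h
    rw [h, coeff_zero] at h1
    exact hk0 h1.symm
  have hdegle : ∀ k : Fin (n + 1), ((X - C a : ℂ[X]) ^ (n - (k : ℕ))).natDegree ≤ n - k := by
    intro k
    rw [natDegree_pow, natDegree_X_sub_C, mul_one]
  refine ⟨∑ k : Fin (n + 1), C (c k) * (X - C a) ^ (n - (k : ℕ)) * T k,
    ∑ k : Fin (n + 1), C (c k) * (X - C a) ^ (n - (k : ℕ)), ?_, ?_, ?_, ?_⟩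
  · intro h
    apply hQ0ne
    have h2 : Q0 = (∑ k : Fin (n + 1), C (c k) * (X - C a) ^ (n - (k : ℕ))).comp (X + C a) := by
      rw [hQ0, ← Polynomial.coe_compRingHom_apply, map_sum]
      apply Finset.sum_congr rfl
      intro k _
      simp
    rw [h2, h, zero_comp]
  · apply natDegree_sum_le_of_forall_le
    intro k _
    refine natDegree_mul_le.trans ?_
    have h1 : (C (c k) * (X - C a) ^ (n - (k : ℕ)) : ℂ[X]).natDegree ≤ n - k :=
      (natDegree_C_mul_le _ _).trans (hdegle k)
    have h2 : (T k).natDegree ≤ k := natDegree_le_of_degree_le (hT k).le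
    have := k.2
    omega
  · apply natDegree_sum_le_of_forall_le
    intro k _
    exact ((natDegree_C_mul_le _ _).trans (hdegle k)).trans (Nat.sub_le _ _)
  · intro z hz
    have h1 : (∑ k : Fin (n + 1), C (c k) * (X - C a) ^ (n - (k : ℕ))).eval z * f z -
        (∑ k : Fin (n + 1), C (c k) * (X - C a) ^ (n - (k : ℕ)) * T k).eval z =
        (z - a) ^ n * ∑ k : Fin (n + 1), c k * it f a k z := by
      rw [eval_finsetSum, eval_finsetSum, Finset.sum_mul, ← Finset.sum_sub_distrib, Finset.mul_sum]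
      apply Finset.sum_congr rfl
      intro k _
      have h2 := hTz k z
      have h3 : (z - a) ^ n = (z - a) ^ (n - (k : ℕ)) * (z - a) ^ (k : ℕ) := by
        rw [← pow_add]
        congr 1
        have := k.2
        omega
      simp only [eval_mul, eval_C, eval_pow, eval_sub, eval_X]
      rw [h3]
      linear_combination (-(c k) * (z - a) ^ (n - (k : ℕ))) * h2
    rw [hrel z hz, mul_zero] at h1
    linear_combination h1

theorem InHardy.congr {D : Set ℂ} {f g : ℂ → ℂ} (hf : InHardy D f) (h : ∀ z ∈ D, g z = f z) :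
    InHardy D g := by
  obtain ⟨h1, u, h2, h3⟩ := hf
  exact ⟨h1.congr h, u, h2, fun z hz => by rw [h z hz]; exact h3 z hz⟩

/-- the combination of the iterated difference quotients with the coefficients of a polynomial -/
noncomputable def act (f : ℂ → ℂ) (a : ℂ) (z : ℂ) : ℂ[X] →ₗ[ℂ] ℂ :=
  Polynomial.lsum (fun k => LinearMap.toSpanSingleton ℂ ℂ (it f a k z))

theorem act_monomial (f : ℂ → ℂ) (a c : ℂ) (k : ℕ) (z : ℂ) :
    act f a z (monomial k c) = c * it f a k z := by
  simp [act, Polynomial.lsum_apply, sum_monomial_index]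

theorem act_X_mul (f : ℂ → ℂ) (a : ℂ) (R : ℂ[X]) (z : ℂ) :
    (z - a) * act f a z (X * R) = act f a z R - act f a a R := by
  induction R using Polynomial.induction_on' with
  | add p q hp hq =>
    rw [mul_add, map_add, map_add, map_add, mul_add, hp, hq]; ring
  | monomial k c =>
    rw [X_mul_monomial, act_monomial, act_monomial, act_monomial]
    have := sub_smul_dslope (it f a k) a z
    simp only [smul_eq_mul] at this
    have e : it f a (k + 1) z = dslope (it f a k) a z := rfl
    rw [e]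
    linear_combination c * this

theorem act_mem {D : Set ℂ} (hD : IsOpen D) {f : ℂ → ℂ} (hf : InHardy D f) {a : ℂ}
    (ha : a ∈ D) (R : ℂ[X]) : InHardy D (fun z => act f a z R) := by
  induction R using Polynomial.induction_on' with
  | add p q hp hq => exact (hp.add hq).congr fun z _ => by simp
  | monomial k c =>
    exact ((it_mem hD hf ha k).smul c).congr fun z _ => by simp [act_monomial]

theorem exists_rel {D : Set ℂ} (hD : IsOpen D) (hfin : FiniteDimensional ℂ (hardy D)) {f : ℂ → ℂ}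
    (hf : InHardy D f) {a : ℂ} (ha : a ∈ D) :
    ∃ n : ℕ, ∃ R : ℂ[X], R.Monic ∧ R.natDegree = n ∧ ∃ c : ℂ, ∀ z ∈ D, act f a z R = c := by
  let v : Fin (Module.finrank ℂ (hardy D) + 1) → hardy D := fun k =>
    ⟨fun z : D => it f a k z, it f a k, it_mem hD hf ha k, fun _ => rfl⟩
  have hdep : ¬ LinearIndependent ℂ v := by
    intro h
    have := h.fintype_card_le_finrank
    simp only [Fintype.card_fin] at this
    omega
  rw [Fintype.not_linearIndependent_iff] at hdep
  obtain ⟨c, hc, k0, hk0⟩ := hdep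
  set Q0 : ℂ[X] := ∑ k : Fin (Module.finrank ℂ (hardy D) + 1), monomial (k : ℕ) (c k) with hQ0
  have hQ0ne : Q0 ≠ 0 := by
    intro h
    have h1 : Q0.coeff k0 = c k0 := by
      rw [hQ0, finsetSum_coeff, Finset.sum_eq_single k0]
      · simp
      · intro b _ hb
        rw [coeff_monomial, if_neg]
        intro h2
        exact hb (Fin.ext h2)
      · intro h; exact absurd (Finset.mem_univ _) h
    rw [h, coeff_zero] at h1
    exact hk0 h1.symm
  refine ⟨_, Q0 * C Q0.leadingCoeff⁻¹, monic_mul_leadingCoeff_inv hQ0ne, rfl, 0, fun z hz => ?_⟩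
  have h1 := congrArg (fun g : hardy D => (g : D → ℂ) ⟨z, hz⟩) hc
  have h2 : act f a z Q0 = 0 := by
    rw [hQ0, map_sum]
    simp only [act_monomial]
    simpa [v] using h1
  rw [mul_comm, ← smul_eq_C_mul, map_smul, h2, smul_zero]

theorem crit {D : Set ℂ} (hD : IsOpen D) (hne : D.Nonempty)
    (hfin : FiniteDimensional ℂ (hardy D)) {f : ℂ → ℂ} (hf : InHardy D f)
    (hnc : ¬ ∃ c, ∀ z ∈ D, f z = c) :
    InHardy D (fun z => z) ∨ ∃ p, p ∉ D ∧ InHardy D (fun z => (z - p)⁻¹) := by
  classical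
  obtain ⟨a, ha⟩ := hne
  have hex := exists_rel hD hfin hf ha
  obtain ⟨R, hR, hRn, c, hc⟩ := Nat.find_spec hex
  set n := Nat.find hex with hn
  have hmin : ∀ m < n, ¬ ∃ R : ℂ[X], R.Monic ∧ R.natDegree = m ∧ ∃ c : ℂ, ∀ z ∈ D, act f a z R = c :=
    fun m hm => Nat.find_min hex hm
  have hn0 : n ≠ 0 := by
    intro h0
    rw [h0] at hRn
    have h1 : R = 1 := hR.natDegree_eq_zero.1 hRn
    apply hnc
    refine ⟨c, fun z hz => ?_⟩
    have := hc z hz
    rw [h1, ← monomial_zero_one, act_monomial] at this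
    simpa [it] using this
  obtain ⟨μ, hμ⟩ := IsAlgClosed.exists_root R (by
    rw [degree_eq_natDegree hR.ne_zero, hRn]
    exact_mod_cast hn0)
  obtain ⟨R1, hR1⟩ := dvd_iff_isRoot.2 hμ
  have hR1m : R1.Monic := by
    have := hR
    rw [hR1] at this
    exact (monic_X_sub_C μ).of_mul_monic_left this
  have hdeg : R1.natDegree + 1 = n := by
    rw [← hRn, hR1, (monic_X_sub_C μ).natDegree_mul hR1m, natDegree_X_sub_C]; ring
  set h : ℂ → ℂ := fun z => act f a z R1 with hh
  have hH : InHardy D h := act_mem hD hf ha R1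
  have hhnc : ¬ ∃ c, ∀ z ∈ D, h z = c := by
    intro hcon
    exact hmin R1.natDegree (by omega) ⟨R1, hR1m, rfl, hcon⟩
  have key : ∀ z ∈ D, h z * (1 - μ * (z - a)) = h a + c * (z - a) := by
    intro z hz
    have h1 := hc z hz
    rw [hR1, sub_mul, map_sub, ← smul_eq_C_mul, map_smul, smul_eq_mul] at h1
    have h2 := act_X_mul f a R1 z
    simp only [hh]
    linear_combination (z - a) * h1 - h2
  by_cases hμ0 : μ = 0
  · left
    have hc0 : c ≠ 0 := by
      rintro rfl
      exact hhnc ⟨h a, fun z hz => by have := key z hz; rw [hμ0] at this; linear_combination this⟩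
    refine ((hH.smul c⁻¹).add (inHardy_const D (a - c⁻¹ * h a))).congr fun z hz => ?_
    have h1 := key z hz
    rw [hμ0] at h1
    simp only [Pi.add_apply, Pi.smul_apply, smul_eq_mul]
    field_simp
    linear_combination -h1
  · right
    set p := a + 1 / μ with hp
    have hfac : ∀ z, 1 - μ * (z - a) = -μ * (z - p) := by
      intro z
      rw [hp]
      field_simp
      ring
    have key2 : ∀ z ∈ D, (h z + c / μ) * (-μ * (z - p)) = h a + c / μ := by
      intro z hz
      have h1 := key z hz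
      rw [← hfac]
      have h2 : c / μ * μ = c := div_mul_cancel₀ _ hμ0
      linear_combination h1 - (z - a) * h2
    have hB : h a + c / μ ≠ 0 := by
      intro h0
      have h3 : ∀ z ∈ D, z ≠ p → h z = -(c / μ) := by
        intro z hz hzp
        have h1 := key2 z hz
        rw [h0] at h1
        have h2 : -μ * (z - p) ≠ 0 := mul_ne_zero (neg_ne_zero.2 hμ0) (sub_ne_zero.2 hzp)
        have := (mul_eq_zero.1 h1).resolve_right h2
        linear_combination this
      apply hhnc
      refine ⟨-(c / μ), fun z hz => ?_⟩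
      by_cases hzp : z = p
      · have hcont : ContinuousAt h z := (hH.1.differentiableAt (hD.mem_nhds hz)).continuousAt
        have h4 : Filter.Tendsto h (𝓝[≠] z) (𝓝 (h z)) := hcont.tendsto.mono_left nhdsWithin_le_nhds
        have h5 : Filter.Tendsto h (𝓝[≠] z) (𝓝 (-(c / μ))) := by
          refine tendsto_const_nhds.congr' ?_
          filter_upwards [self_mem_nhdsWithin, nhdsWithin_le_nhds (hD.mem_nhds hz)] with w hw hwD
          rw [h3 w hwD (by rw [← hzp]; exact hw)]
        exact tendsto_nhds_unique h4 h5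
      · exact h3 z hz hzp
    have hpD : p ∉ D := by
      intro hpD
      have := key2 p hpD
      rw [sub_self, mul_zero, mul_zero] at this
      exact hB this.symm
    refine ⟨p, hpD, ((hH.add (inHardy_const D (c / μ))).smul (-μ / (h a + c / μ))).congr fun z hz => ?_⟩
    have hzp : z - p ≠ 0 := sub_ne_zero.2 (by rintro rfl; exact hpD hz)
    have h1 := key2 z hz
    simp only [Pi.add_apply, Pi.smul_apply, smul_eq_mul]
    rw [inv_eq_iff_eq_inv, eq_comm]
    rw [inv_eq_iff_eq_inv]
    rw [div_mul_eq_mul_div, div_eq_iff hB, ← h1]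
    field_simp

/-- **Finite-dimensional Hardy spaces of planar domains.** Let `H²(D)` be finite-dimensional. (1) Every `f ∈ H²(D)` is a
rational function of degree at most `dim H²(D)`. (2) If `H²(D)` contains a nonconstant function, then `z ∈ H²(D)` or
`1 / (z - p) ∈ H²(D)` for some `p ∉ D`. -/
theorem result (D : Set ℂ) (hD : IsOpen D) (hne : D.Nonempty)
    (hfin : FiniteDimensional ℂ (hardy D)) :
    (∀ f : ℂ → ℂ, InHardy D f →
      ∃ P Q : ℂ[X], Q ≠ 0 ∧ P.natDegree ≤ Module.finrank ℂ (hardy D) ∧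
        Q.natDegree ≤ Module.finrank ℂ (hardy D) ∧ ∀ z ∈ D, Q.eval z * f z = P.eval z) ∧
    ((∃ f : ℂ → ℂ, InHardy D f ∧ ¬ ∃ c, ∀ z ∈ D, f z = c) →
      InHardy D (fun z => z) ∨ ∃ p, p ∉ D ∧ InHardy D (fun z => (z - p)⁻¹)) :=
  ⟨fun f hf => rational D hD hne hfin f hf, fun ⟨_, hf, hnc⟩ => crit hD hne hfin hf hnc⟩

end Pool.Agent.Results.MP_4874ca_an.RationalIfFinite
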